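import Pool.Agent.P.MP_ef40db_lc.Defs

namespace Pool.Agent.P.MP_ef40db_lc

namespace Inst

variable (I : Inst)

/-- stable matchings (the lower quotas play no role) -/
def IsStable (M : Finset (Fin I.n₁ × Fin I.n₂)) : Prop :=
  I.IsMatching M ∧ ∀ s p, ¬ I.Blocks M s p

/-- every student gets the better of her projects in `M` and `N` -/
def better (M N : Finset (Fin I.n₁ × Fin I.n₂)) : Finset (Fin I.n₁ × Fin I.n₂) :=
  (M ∪ N).filter (fun x => ∀ p, (x.1, p) ∈ M ∪ N →
    (I.pref x.1).idxOf x.2 ≤ (I.pref x.1).idxOf p)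

/-- every student gets the worse of her projects in `M` and `N` -/
def worse (M N : Finset (Fin I.n₁ × Fin I.n₂)) : Finset (Fin I.n₁ × Fin I.n₂) :=
  (M ∪ N).filter (fun x => ∀ p, (x.1, p) ∈ M ∪ N →
    (I.pref x.1).idxOf p ≤ (I.pref x.1).idxOf x.2)

end Inst

end Pool.Agent.P.MP_ef40db_lc
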