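import Pool.Agent.P.MP_ef40db_lc.Math
import Pool.Agent.P.MP_ef40db_lc.H2.Defs

/-! Join and meet of two stable matchings, and their project counts. -/

namespace Pool.Agent.P.MP_ef40db_lc

open Finset

namespace Inst

variable {I : Inst}

/-- sets of pairs -/
abbrev Prs (I : Inst) : Type := Finset (Fin I.n₁ × Fin I.n₂)

/-- position of `p` in the list of `s` -/
def ix (I : Inst) (s : Fin I.n₁) (p : Fin I.n₂) : ℕ := (I.pref s).idxOf p

/-- `s` would move to `p` -/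
def Wants (M : I.Prs) (s : Fin I.n₁) (p : Fin I.n₂) : Prop :=
  p ∈ I.pref s ∧ ∀ p', (s, p') ∈ M → I.ix s p < I.ix s p'

/-- number of students on `p` -/
def cnt (M : I.Prs) (p : Fin I.n₂) : ℕ := (I.onProj M p).card

/-- number of pairs at `l` -/
def cntL (M : I.Prs) (l : Fin I.n₃) : ℕ := ∑ p ∈ univ.filter (fun p => I.lec p = l), cnt M p

/-- rejected by the project -/
def DomP (M : I.Prs) (s : Fin I.n₁) (p : Fin I.n₂) : Prop :=
  I.c p ≤ cnt M p ∧ ∀ w, (w, p) ∈ M → I.rk (I.lec p) w < I.rk (I.lec p) s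

/-- rejected by the lecturer -/
def DomL (M : I.Prs) (s : Fin I.n₁) (l : Fin I.n₃) : Prop :=
  I.d l ≤ cntL M l ∧ ∀ w p, I.lec p = l → (w, p) ∈ M → I.rk l w < I.rk l s

/-- rejected -/
def Dom (M : I.Prs) (s : Fin I.n₁) (p : Fin I.n₂) : Prop := DomP M s p ∨ DomL M s (I.lec p)

theorem ix_inj {s : Fin I.n₁} {p p' : Fin I.n₂} (h : p ∈ I.pref s) (e : I.ix s p = I.ix s p') :
    p = p' := (List.idxOf_inj h).1 e

theorem Dom.lt {M : I.Prs} {s w : Fin I.n₁} {p : Fin I.n₂} (h : Dom M s p) (hw : (w, p) ∈ M) :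
    I.rk (I.lec p) w < I.rk (I.lec p) s := by
  rcases h with h | h
  · exact h.2 w hw
  · exact h.2 w p rfl hw

theorem DomL.mono {M : I.Prs} {s s' : Fin I.n₁} {l : Fin I.n₃} (h : DomL M s l)
    (hs : I.rk l s ≤ I.rk l s') : DomL M s' l :=
  ⟨h.1, fun w p e hw => (h.2 w p e hw).trans_le hs⟩

theorem Dom.mono {M : I.Prs} {s s' : Fin I.n₁} {p : Fin I.n₂} (h : Dom M s p)
    (hs : I.rk (I.lec p) s ≤ I.rk (I.lec p) s') : Dom M s' p := by
  rcases h with h | h
  · exact Or.inl ⟨h.1, fun w hw => (h.2 w hw).trans_le hs⟩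
  · exact Or.inr (h.mono hs)

theorem card_onLec' {M : I.Prs} (hM : ∀ s p p', (s, p) ∈ M → (s, p') ∈ M → p = p')
    (l : Fin I.n₃) : (I.onLec M l).card = cntL M l := card_onLec hM l

theorem dom_of_stable {M : I.Prs} (h : I.IsStable M) {s : Fin I.n₁} {p : Fin I.n₂}
    (hw : Wants M s p) : Dom M s p := by
  obtain ⟨⟨-, hf, hc, hd⟩, hb⟩ := h
  have hn : (s, p) ∉ M := fun hm => lt_irrefl _ (hw.2 p hm)
  have h2 : (∀ p', (s, p') ∉ M) ∨
      ∃ p', (s, p') ∈ M ∧ (I.pref s).idxOf p < (I.pref s).idxOf p' := by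
    by_cases hx : ∃ p', (s, p') ∈ M
    · obtain ⟨p', hp'⟩ := hx
      exact Or.inr ⟨p', hp', hw.2 p' hp'⟩
    · exact Or.inl (fun p' hp' => hx ⟨p', hp'⟩)
  have hs := mem_rank_of hw.1
  have key : ∀ X : Finset (Fin I.n₁), s ∉ X → ¬ I.PrefersToWorst (I.lec p) s X →
      ∀ w ∈ X, I.rk (I.lec p) w < I.rk (I.lec p) s := by
    intro X hX hP w hwX
    rw [prefersToWorst_iff] at hP
    by_contra hlt
    rcases (not_lt.1 hlt).lt_or_eq with h | h
    · exact hP ⟨w, hwX, h⟩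
    · exact hX (rk_inj hs h ▸ hwX)
  rcases (hc p).lt_or_eq with h1 | h1
  · rcases (hd (I.lec p)).lt_or_eq with h3 | h3
    · exact absurd ⟨hn, hw.1, h2, Or.inl ⟨h1, h3⟩⟩ (hb s p)
    · have h4 : s ∉ I.onLec M (I.lec p) := fun hx =>
        hb s p ⟨hn, hw.1, h2, Or.inr (Or.inl ⟨h1, h3, Or.inl hx⟩)⟩
      have h5 : ¬ I.PrefersToWorst (I.lec p) s (I.onLec M (I.lec p)) := fun hx =>
        hb s p ⟨hn, hw.1, h2, Or.inr (Or.inl ⟨h1, h3, Or.inr hx⟩)⟩
      refine Or.inr ⟨by rw [← card_onLec' hf, h3], fun w p' e hw' => ?_⟩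
      exact key _ h4 h5 w (mem_onLec.2 ⟨p', e, hw'⟩)
  · have h5 : ¬ I.PrefersToWorst (I.lec p) s (I.onProj M p) := fun hx =>
      hb s p ⟨hn, hw.1, h2, Or.inr (Or.inr ⟨h1, hx⟩)⟩
    exact Or.inl ⟨h1.ge, fun w hw' =>
      key _ (fun hx => hn (mem_onProj.1 hx)) h5 w (mem_onProj.2 hw')⟩

theorem stable_of_dom {M : I.Prs} (hM : I.IsMatching M)
    (h : ∀ s p, Wants M s p → Dom M s p) : I.IsStable M := by
  refine ⟨hM, ?_⟩
  rintro s p ⟨hn, hp, h2, h3⟩
  have hw : Wants M s p := by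
    refine ⟨hp, fun p' hp' => ?_⟩
    rcases h2 with h2 | ⟨p'', h2, h4⟩
    · exact absurd hp' (h2 p')
    · rw [hM.2.1 s p' p'' hp' h2]; exact h4
  have hd := h s p hw
  have hP : ¬ I.PrefersToWorst (I.lec p) s (I.onProj M p) := by
    rw [prefersToWorst_iff]
    rintro ⟨w, hw, hlt⟩
    have := hd.lt (mem_onProj.1 hw)
    omega
  rcases hd with hd | hd
  · have := hd.1
    unfold cnt at this
    rcases h3 with h3 | h3 | h3
    · omega
    · omega
    · exact hP h3.2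
  · have h4 := hd.1
    rw [← card_onLec' hM.2.1] at h4
    rcases h3 with h3 | ⟨-, -, h3 | h3⟩ | h3
    · omega
    · obtain ⟨p', e, h5⟩ := mem_onLec.1 h3
      exact lt_irrefl _ (hd.2 s p' e h5)
    · rw [prefersToWorst_iff] at h3
      obtain ⟨w, hw, hlt⟩ := h3
      obtain ⟨p', e, h5⟩ := mem_onLec.1 hw
      have := hd.2 w p' e h5
      omega
    · exact hP h3.2

open Classical in
/-- pairs of `N` that their student prefers to `M` -/
noncomputable def A (M N : I.Prs) : I.Prs := N.filter (fun x => Wants M x.1 x.2)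

open Classical in
/-- pairs of `M` whose student does better in `N` -/
noncomputable def B (M N : I.Prs) : I.Prs :=
  M.filter (fun x => ∃ p', (x.1, p') ∈ N ∧ I.ix x.1 p' < I.ix x.1 x.2)

theorem mem_A {M N : I.Prs} {s : Fin I.n₁} {p : Fin I.n₂} :
    (s, p) ∈ A M N ↔ (s, p) ∈ N ∧ Wants M s p := by simp [A]

theorem mem_B {M N : I.Prs} {s : Fin I.n₁} {p : Fin I.n₂} :
    (s, p) ∈ B M N ↔ (s, p) ∈ M ∧ ∃ p', (s, p') ∈ N ∧ I.ix s p' < I.ix s p := by simp [B]

theorem cnt3 {W X Y Z : I.Prs}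
    (h : ∀ s p, (s, p) ∈ W ↔ (s, p) ∈ X ∨ (s, p) ∈ Y ∨ (s, p) ∈ Z)
    (h1 : ∀ s p, (s, p) ∈ X → (s, p) ∉ Y) (h2 : ∀ s p, (s, p) ∈ X → (s, p) ∉ Z)
    (h3 : ∀ s p, (s, p) ∈ Y → (s, p) ∉ Z) (p : Fin I.n₂) :
    cnt W p = cnt X p + cnt Y p + cnt Z p := by
  unfold cnt
  have e : I.onProj W p = (I.onProj X p ∪ I.onProj Y p) ∪ I.onProj Z p := by
    ext s
    simp only [mem_union, mem_onProj, h, or_assoc]
  rw [e, card_union_of_disjoint, card_union_of_disjoint]
  · rw [disjoint_left]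
    intro s a b
    exact h1 s p (mem_onProj.1 a) (mem_onProj.1 b)
  · rw [disjoint_left]
    intro s a b
    rcases mem_union.1 a with a | a
    · exact h2 s p (mem_onProj.1 a) (mem_onProj.1 b)
    · exact h3 s p (mem_onProj.1 a) (mem_onProj.1 b)

theorem cnt_pos {X : I.Prs} {p : Fin I.n₂} : cnt X p ≠ 0 ↔ ∃ s, (s, p) ∈ X := by
  unfold cnt
  rw [card_ne_zero]
  exact ⟨fun ⟨s, hs⟩ => ⟨s, mem_onProj.1 hs⟩, fun ⟨s, hs⟩ => ⟨s, mem_onProj.2 hs⟩⟩

section two

variable {M N : I.Prs}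

theorem split (hM : I.IsMatching M) (s : Fin I.n₁) (p : Fin I.n₂) :
    (s, p) ∈ M ↔ (s, p) ∈ M ∩ N ∨ (s, p) ∈ A N M ∨ (s, p) ∈ B M N := by
  rw [mem_inter, mem_A, mem_B]
  constructor
  · intro h
    by_cases h1 : (s, p) ∈ N
    · exact Or.inl ⟨h, h1⟩
    by_cases h2 : ∃ p', (s, p') ∈ N ∧ I.ix s p' < I.ix s p
    · exact Or.inr (Or.inr ⟨h, h2⟩)
    refine Or.inr (Or.inl ⟨h, hM.1 s p h, fun p' hp' => ?_⟩)
    by_contra hlt
    rcases (not_lt.1 hlt).lt_or_eq with h3 | h3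
    · exact h2 ⟨p', hp', h3⟩
    · exact h1 (ix_inj (hM.1 s p h) h3.symm ▸ hp')
  · rintro (h | h | h) <;> exact h.1

theorem cnt_split (hM : I.IsMatching M) (hN : I.IsMatching N) (p : Fin I.n₂) :
    cnt M p = cnt (M ∩ N) p + cnt (A N M) p + cnt (B M N) p := by
  refine cnt3 (split hM) ?_ ?_ ?_ p
  · intro s p h1 h2
    exact lt_irrefl _ ((mem_A.1 h2).2.2 p (mem_inter.1 h1).2)
  · intro s p h1 h2
    obtain ⟨p', h3, h4⟩ := (mem_B.1 h2).2
    rw [hN.2.1 s p' p h3 (mem_inter.1 h1).2] at h4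
    exact lt_irrefl _ h4
  · intro s p h1 h2
    obtain ⟨p', h3, h4⟩ := (mem_B.1 h2).2
    have := (mem_A.1 h1).2.2 p' h3
    omega

theorem cnt_split' (hM : I.IsMatching M) (hN : I.IsMatching N) (p : Fin I.n₂) :
    cnt N p = cnt (M ∩ N) p + cnt (A M N) p + cnt (B N M) p := by
  rw [cnt_split hN hM p, inter_comm]

theorem cntL_split (hM : I.IsMatching M) (hN : I.IsMatching N) (l : Fin I.n₃) :
    cntL M l = cntL (M ∩ N) l + cntL (A N M) l + cntL (B M N) l := by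
  unfold cntL
  rw [← sum_add_distrib, ← sum_add_distrib]
  exact sum_congr rfl (fun p _ => cnt_split hM hN p)

theorem cntL_le (hM : I.IsMatching M) (l : Fin I.n₃) : cntL M l ≤ I.d l := by
  rw [← card_onLec' hM.2.1]; exact hM.2.2.2 l

/-- all pairs at `l` wanted in `M` are rejected by their project -/
def HP (M N : I.Prs) (l : Fin I.n₃) : Prop :=
  ∀ s p, I.lec p = l → (s, p) ∈ A M N → DomP M s p

theorem not_HP (hM : I.IsStable M) {l : Fin I.n₃} (h : ¬ HP M N l) :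
    ∃ s p, I.lec p = l ∧ (s, p) ∈ N ∧ DomL M s l := by
  unfold HP at h
  push Not at h
  obtain ⟨s, p, rfl, h1, h2⟩ := h
  rcases dom_of_stable hM (mem_A.1 h1).2 with h3 | h3
  · exact absurd h3 h2
  · exact ⟨s, p, rfl, (mem_A.1 h1).1, h3⟩

theorem HP_or (hM : I.IsStable M) (hN : I.IsStable N) (l : Fin I.n₃) : HP M N l ∨ HP N M l := by
  by_contra h
  rw [not_or] at h
  obtain ⟨s, p, e, h1, h2⟩ := not_HP hM h.1
  obtain ⟨s', p', e', h3, h4⟩ := not_HP hN h.2
  have := h2.2 s' p' e' h3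
  have := h4.2 s p e h1
  omega

theorem proj_le (hM : I.IsStable M) (hN : I.IsStable N) {l : Fin I.n₃} (H : HP M N l)
    {p : Fin I.n₂} (e : I.lec p = l) : cnt (A M N) p ≤ cnt (B M N) p := by
  by_cases h0 : cnt (A M N) p = 0
  · omega
  obtain ⟨s, hs⟩ := cnt_pos.1 h0
  have h1 := H s p e hs
  have h2 : cnt (A N M) p = 0 := by
    by_contra h2
    obtain ⟨s', hs'⟩ := cnt_pos.1 h2
    have := h1.2 s' (mem_A.1 hs').1
    have := (dom_of_stable hN (mem_A.1 hs').2).lt (mem_A.1 hs).1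
    omega
  have h3 := cnt_split hM.1 hN.1 p
  have h4 := cnt_split' hM.1 hN.1 p
  have h5 : cnt N p ≤ I.c p := hN.1.2.2.1 p
  have h6 := h1.1
  omega

theorem lec_le (hM : I.IsStable M) (hN : I.IsStable N) (l : Fin I.n₃) :
    cntL (A M N) l ≤ cntL (B M N) l := by
  by_cases H : HP M N l
  · exact sum_le_sum (fun p hp => proj_le hM hN H (mem_filter.1 hp).2)
  have H' := (HP_or hM hN l).resolve_left H
  obtain ⟨s, p, -, -, h2⟩ := not_HP hM H
  have h3 : cntL (A N M) l ≤ cntL (B N M) l :=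
    sum_le_sum (fun p hp => proj_le hN hM H' (mem_filter.1 hp).2)
  have h4 := cntL_split hM.1 hN.1 l
  have h5 := cntL_split hN.1 hM.1 l
  rw [inter_comm] at h5
  have h6 := cntL_le hN.1 l
  have h7 := h2.1
  omega

theorem lec_eq (hM : I.IsStable M) (hN : I.IsStable N) :
    (∀ l, cntL (A M N) l = cntL (B M N) l) ∧
      ∀ s p, (s, p) ∈ A M N → ∃ p', (s, p') ∈ B M N := by
  have fA : ∀ s p p', (s, p) ∈ A M N → (s, p') ∈ A M N → p = p' := fun s p p' h h' =>
    hN.1.2.1 s p p' (mem_A.1 h).1 (mem_A.1 h').1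
  have fB : ∀ s p p', (s, p) ∈ B M N → (s, p') ∈ B M N → p = p' := fun s p p' h h' =>
    hM.1.2.1 s p p' (mem_B.1 h).1 (mem_B.1 h').1
  have sA := sum_card_onLec fA
  have sB := sum_card_onLec fB
  simp only [card_onLec' fA] at sA
  simp only [card_onLec' fB] at sB
  have hsub : univ.filter (fun s => ∃ p, (s, p) ∈ B M N) ⊆
      univ.filter (fun s => ∃ p, (s, p) ∈ A M N) := by
    intro s hs
    obtain ⟨p, hp⟩ := (mem_filter.1 hs).2
    obtain ⟨h1, p', h2, h3⟩ := mem_B.1 hp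
    refine mem_filter.2 ⟨mem_univ _, p', mem_A.2 ⟨h2, hN.1.1 s p' h2, fun p'' h4 => ?_⟩⟩
    rw [hM.1.2.1 s p'' p h4 h1]; exact h3
  have h1 := card_le_card hsub
  have h2 : ∑ l, cntL (A M N) l ≤ ∑ l, cntL (B M N) l := sum_le_sum (fun l _ => lec_le hM hN l)
  refine ⟨fun l => (sum_eq_sum_iff_of_le (fun l _ => lec_le hM hN l)).1 (by omega) l
    (mem_univ _), fun s p hp => ?_⟩
  have h3 := eq_of_subset_of_card_le hsub (by omega)
  have h4 : s ∈ univ.filter (fun s => ∃ p, (s, p) ∈ A M N) := mem_filter.2 ⟨mem_univ _, p, hp⟩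
  rw [← h3] at h4
  exact (mem_filter.1 h4).2

theorem proj_eq (hM : I.IsStable M) (hN : I.IsStable N) {l : Fin I.n₃} (H : HP M N l)
    {p : Fin I.n₂} (e : I.lec p = l) : cnt (A M N) p = cnt (B M N) p :=
  (sum_eq_sum_iff_of_le (fun p hp => proj_le hM hN H (mem_filter.1 hp).2)).1
    ((lec_eq hM hN).1 l) p (mem_filter.2 ⟨mem_univ _, e⟩)

theorem better_comm : I.better M N = I.better N M := by simp only [better, union_comm]

theorem worse_comm : I.worse M N = I.worse N M := by simp only [worse, union_comm]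

theorem mem_better' {s : Fin I.n₁} {p : Fin I.n₂} : (s, p) ∈ I.better M N ↔
    ((s, p) ∈ M ∨ (s, p) ∈ N) ∧ ∀ p', ((s, p') ∈ M ∨ (s, p') ∈ N) → I.ix s p ≤ I.ix s p' := by
  simp only [better, mem_filter, mem_union, ix]

theorem mem_worse' {s : Fin I.n₁} {p : Fin I.n₂} : (s, p) ∈ I.worse M N ↔
    ((s, p) ∈ M ∨ (s, p) ∈ N) ∧ ∀ p', ((s, p') ∈ M ∨ (s, p') ∈ N) → I.ix s p' ≤ I.ix s p := by
  simp only [worse, mem_filter, mem_union, ix]

theorem mem_better (hM : I.IsMatching M) (hN : I.IsMatching N) (s : Fin I.n₁) (p : Fin I.n₂) :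
    (s, p) ∈ I.better M N ↔ (s, p) ∈ M ∩ N ∨ (s, p) ∈ A M N ∨ (s, p) ∈ A N M := by
  rw [mem_better']
  constructor
  · rintro ⟨h | h, h'⟩
    · rcases (split (N := N) hM s p).1 h with h1 | h1 | h1
      · exact Or.inl h1
      · exact Or.inr (Or.inr h1)
      · obtain ⟨p', h2, h3⟩ := (mem_B.1 h1).2
        have := h' p' (Or.inr h2)
        omega
    · rcases (split (N := M) hN s p).1 h with h1 | h1 | h1
      · exact Or.inl (inter_comm N M ▸ h1)
      · exact Or.inr (Or.inl h1)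
      · obtain ⟨p', h2, h3⟩ := (mem_B.1 h1).2
        have := h' p' (Or.inl h2)
        omega
  · rintro (h | h | h)
    · obtain ⟨h1, h2⟩ := mem_inter.1 h
      refine ⟨Or.inl h1, ?_⟩
      rintro p' (h3 | h3)
      · rw [hM.2.1 s p' p h3 h1]
      · rw [hN.2.1 s p' p h3 h2]
    · obtain ⟨h1, h2⟩ := mem_A.1 h
      refine ⟨Or.inr h1, ?_⟩
      rintro p' (h3 | h3)
      · exact (h2.2 p' h3).le
      · rw [hN.2.1 s p' p h3 h1]
    · obtain ⟨h1, h2⟩ := mem_A.1 h
      refine ⟨Or.inl h1, ?_⟩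
      rintro p' (h3 | h3)
      · rw [hM.2.1 s p' p h3 h1]
      · exact (h2.2 p' h3).le

theorem mem_worse (hM : I.IsStable M) (hN : I.IsStable N) (s : Fin I.n₁) (p : Fin I.n₂) :
    (s, p) ∈ I.worse M N ↔ (s, p) ∈ M ∩ N ∨ (s, p) ∈ B M N ∨ (s, p) ∈ B N M := by
  rw [mem_worse']
  constructor
  · rintro ⟨h | h, h'⟩
    · rcases (split (N := N) hM.1 s p).1 h with h1 | h1 | h1
      · exact Or.inl h1
      · obtain ⟨p', h2⟩ := (lec_eq hN hM).2 s p h1
        have h3 := (mem_B.1 h2).1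
        have := h' p' (Or.inr h3)
        have := (mem_A.1 h1).2.2 p' h3
        omega
      · exact Or.inr (Or.inl h1)
    · rcases (split (N := M) hN.1 s p).1 h with h1 | h1 | h1
      · exact Or.inl (inter_comm N M ▸ h1)
      · obtain ⟨p', h2⟩ := (lec_eq hM hN).2 s p h1
        have h3 := (mem_B.1 h2).1
        have := h' p' (Or.inl h3)
        have := (mem_A.1 h1).2.2 p' h3
        omega
      · exact Or.inr (Or.inr h1)
  · rintro (h | h | h)
    · obtain ⟨h1, h2⟩ := mem_inter.1 h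
      refine ⟨Or.inl h1, ?_⟩
      rintro p' (h3 | h3)
      · rw [hM.1.2.1 s p' p h3 h1]
      · rw [hN.1.2.1 s p' p h3 h2]
    · obtain ⟨h1, p'', h2, h4⟩ := mem_B.1 h
      refine ⟨Or.inl h1, ?_⟩
      rintro p' (h3 | h3)
      · rw [hM.1.2.1 s p' p h3 h1]
      · rw [hN.1.2.1 s p' p'' h3 h2]; exact h4.le
    · obtain ⟨h1, p'', h2, h4⟩ := mem_B.1 h
      refine ⟨Or.inr h1, ?_⟩
      rintro p' (h3 | h3)
      · rw [hM.1.2.1 s p' p'' h3 h2]; exact h4.le
      · rw [hN.1.2.1 s p' p h3 h1]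

theorem cnt_better (hM : I.IsMatching M) (hN : I.IsMatching N) (p : Fin I.n₂) :
    cnt (I.better M N) p = cnt (M ∩ N) p + cnt (A M N) p + cnt (A N M) p := by
  refine cnt3 (mem_better hM hN) ?_ ?_ ?_ p
  · intro s p h1 h2
    exact lt_irrefl _ ((mem_A.1 h2).2.2 p (mem_inter.1 h1).1)
  · intro s p h1 h2
    exact lt_irrefl _ ((mem_A.1 h2).2.2 p (mem_inter.1 h1).2)
  · intro s p h1 h2
    exact lt_irrefl _ ((mem_A.1 h2).2.2 p (mem_A.1 h1).1)

theorem cnt_worse (hM : I.IsStable M) (hN : I.IsStable N) (p : Fin I.n₂) :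
    cnt (I.worse M N) p = cnt (M ∩ N) p + cnt (B M N) p + cnt (B N M) p := by
  refine cnt3 (mem_worse hM hN) ?_ ?_ ?_ p
  · intro s p h1 h2
    obtain ⟨p', h3, h4⟩ := (mem_B.1 h2).2
    rw [hN.1.2.1 s p' p h3 (mem_inter.1 h1).2] at h4
    exact lt_irrefl _ h4
  · intro s p h1 h2
    obtain ⟨p', h3, h4⟩ := (mem_B.1 h2).2
    rw [hM.1.2.1 s p' p h3 (mem_inter.1 h1).1] at h4
    exact lt_irrefl _ h4
  · intro s p h1 h2
    obtain ⟨p', h3, h4⟩ := (mem_B.1 h2).2
    rw [hM.1.2.1 s p' p h3 (mem_B.1 h1).1] at h4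
    exact lt_irrefl _ h4

/-- the swap of project counts -/
theorem swap (hM : I.IsStable M) (hN : I.IsStable N) {l : Fin I.n₃} (H : HP N M l)
    {p : Fin I.n₂} (e : I.lec p = l) :
    cnt (I.better M N) p = cnt N p ∧ cnt (I.worse M N) p = cnt M p := by
  have h1 := proj_eq hN hM H e
  have h2 := cnt_better hM.1 hN.1 p
  have h3 := cnt_worse hM hN p
  have h4 := cnt_split hM.1 hN.1 p
  have h5 := cnt_split' hM.1 hN.1 p
  omega

theorem swapL (hM : I.IsStable M) (hN : I.IsStable N) {l : Fin I.n₃} (H : HP N M l) :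
    cntL (I.better M N) l = cntL N l ∧ cntL (I.worse M N) l = cntL M l :=
  ⟨sum_congr rfl (fun _ hp => (swap hM hN H (mem_filter.1 hp).2).1),
    sum_congr rfl (fun _ hp => (swap hM hN H (mem_filter.1 hp).2).2)⟩

theorem worse_le (hM : I.IsStable M) (hN : I.IsStable N) {l : Fin I.n₃} (H : HP N M l)
    {w : Fin I.n₁} {p : Fin I.n₂} (e : I.lec p = l) (hw : (w, p) ∈ I.worse M N) :
    ∃ a, (a, p) ∈ M ∧ I.rk l w ≤ I.rk l a := by
  rcases (mem_worse hM hN w p).1 hw with h | h | h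
  · exact ⟨w, (mem_inter.1 h).1, le_rfl⟩
  · exact ⟨w, (mem_B.1 h).1, le_rfl⟩
  · have h1 : cnt (A N M) p ≠ 0 := by
      rw [proj_eq hN hM H e]; exact cnt_pos.2 ⟨w, h⟩
    obtain ⟨a, ha⟩ := cnt_pos.1 h1
    have := (H a p e ha).2 w (mem_B.1 h).1
    rw [e] at this
    exact ⟨a, (mem_A.1 ha).1, this.le⟩

theorem transferL (hM : I.IsStable M) (hN : I.IsStable N) {l : Fin I.n₃} (H : HP N M l)
    {s : Fin I.n₁} (h : DomL M s l) : DomL (I.worse M N) s l := by
  refine ⟨by rw [(swapL hM hN H).2]; exact h.1, fun w p e hw => ?_⟩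
  obtain ⟨a, h1, h2⟩ := worse_le hM hN H e hw
  exact h2.trans_lt (h.2 a p e h1)

theorem transfer (hM : I.IsStable M) (hN : I.IsStable N) {s : Fin I.n₁} {p : Fin I.n₂}
    (H : HP N M (I.lec p)) (h : Dom M s p) : Dom (I.worse M N) s p := by
  rcases h with h | h
  · refine Or.inl ⟨by rw [(swap hM hN H rfl).2]; exact h.1, fun w hw => ?_⟩
    obtain ⟨a, h1, h2⟩ := worse_le hM hN H rfl hw
    exact h2.trans_lt (h.2 a h1)
  · exact Or.inr (transferL hM hN H h)

theorem dom_worse (hM : I.IsStable M) (hN : I.IsStable N) {s : Fin I.n₁} {p : Fin I.n₂}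
    (h : Dom N s p) : Dom (I.worse M N) s p := by
  by_cases H : HP M N (I.lec p)
  · rw [worse_comm]; exact transfer hN hM H h
  have H' := (HP_or hM hN _).resolve_left H
  rcases h with h | h
  · by_cases h0 : cnt (A M N) p = 0
    · have h1 := (swap hM hN H' rfl).2
      have h2 := cnt_worse hM hN p
      have h3 := cnt_split' hM.1 hN.1 p
      have h4 : cnt M p ≤ I.c p := hM.1.2.2.1 p
      have h5 := h.1
      refine Or.inl ⟨by omega, fun w hw => h.2 w ?_⟩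
      rcases (mem_worse hM hN w p).1 hw with h6 | h6 | h6
      · exact (mem_inter.1 h6).2
      · exact absurd (by omega) (cnt_pos.2 ⟨w, h6⟩)
      · exact (mem_B.1 h6).1
    · obtain ⟨a, ha⟩ := cnt_pos.1 h0
      exact (transfer hM hN H' (dom_of_stable hM (mem_A.1 ha).2)).mono
        (h.2 a (mem_A.1 ha).1).le
  · obtain ⟨a, p', e, h1, h2⟩ := not_HP hM H
    exact Or.inr ((transferL hM hN H' h2).mono (h.2 a p' e h1).le)

theorem dom_better (hM : I.IsStable M) (hN : I.IsStable N) {s : Fin I.n₁} {p : Fin I.n₂}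
    (H : HP N M (I.lec p)) (h : Dom M s p) (h' : Dom N s p) : Dom (I.better M N) s p := by
  have hP : ∀ w, (w, p) ∈ I.better M N → I.rk (I.lec p) w < I.rk (I.lec p) s := by
    intro w hw
    rcases (mem_better'.1 hw).1 with h1 | h1
    · exact h.lt h1
    · exact h'.lt h1
  rcases h' with h' | h'
  · exact Or.inl ⟨by rw [(swap hM hN H rfl).1]; exact h'.1, hP⟩
  have hL : (∀ w p', I.lec p' = I.lec p → (w, p') ∈ M →
      I.rk (I.lec p) w < I.rk (I.lec p) s) → Dom (I.better M N) s p := by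
    intro hh
    refine Or.inr ⟨by rw [(swapL hM hN H).1]; exact h'.1, fun w p' e hw => ?_⟩
    rcases (mem_better'.1 hw).1 with h1 | h1
    · exact hh w p' e h1
    · exact h'.2 w p' e h1
  rcases h with h | h
  · by_cases H' : HP M N (I.lec p)
    · refine Or.inl ⟨?_, hP⟩
      rw [better_comm, (swap hN hM H' rfl).1]; exact h.1
    · obtain ⟨a, p', e, h1, h2⟩ := not_HP hM H'
      exact hL (fun w p'' e' hw => (h2.2 w p'' e' hw).trans (h'.2 a p' e h1))
  · exact hL h.2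

theorem counts (hM : I.IsStable M) (hN : I.IsStable N) (l : Fin I.n₃) :
    (∀ p, I.lec p = l → cnt (I.better M N) p = cnt M p ∧ cnt (I.worse M N) p = cnt N p) ∨
    (∀ p, I.lec p = l → cnt (I.better M N) p = cnt N p ∧ cnt (I.worse M N) p = cnt M p) := by
  rcases HP_or hM hN l with H | H
  · refine Or.inl (fun p e => ?_)
    rw [better_comm, worse_comm]; exact swap hN hM H e
  · exact Or.inr (fun p e => swap hM hN H e)

theorem matching_of {X : I.Prs} (hM : I.IsMatching M) (hN : I.IsMatching N)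
    (h1 : ∀ s p, (s, p) ∈ X → (s, p) ∈ M ∨ (s, p) ∈ N)
    (h2 : ∀ s p p', (s, p) ∈ X → (s, p') ∈ X → I.ix s p ≤ I.ix s p')
    (h3 : ∀ l, (∀ p, I.lec p = l → cnt X p = cnt M p) ∨ (∀ p, I.lec p = l → cnt X p = cnt N p)) :
    I.IsMatching X := by
  have hacc : ∀ s p, (s, p) ∈ X → p ∈ I.pref s := fun s p h =>
    (h1 s p h).elim (hM.1 s p) (hN.1 s p)
  have hf : ∀ s p p', (s, p) ∈ X → (s, p') ∈ X → p = p' := fun s p p' h h' =>
    ix_inj (hacc s p h) (le_antisymm (h2 s p p' h h') (h2 s p' p h' h))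
  refine ⟨hacc, hf, fun p => ?_, fun l => ?_⟩
  · rcases h3 (I.lec p) with h | h
    · exact (h p rfl).le.trans (hM.2.2.1 p)
    · exact (h p rfl).le.trans (hN.2.2.1 p)
  · rw [card_onLec' hf]
    rcases h3 l with h | h
    · exact (sum_congr rfl (fun p hp => h p (mem_filter.1 hp).2)).le.trans (cntL_le hM l)
    · exact (sum_congr rfl (fun p hp => h p (mem_filter.1 hp).2)).le.trans (cntL_le hN l)

theorem wants_of_better (hM : I.IsMatching M) (hN : I.IsMatching N) {s : Fin I.n₁}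
    {p : Fin I.n₂} (h : Wants (I.better M N) s p) : Wants M s p := by
  refine ⟨h.1, fun p' hp' => ?_⟩
  rcases (split (N := N) hM s p').1 hp' with h1 | h1 | h1
  · exact h.2 p' ((mem_better hM hN s p').2 (Or.inl h1))
  · exact h.2 p' ((mem_better hM hN s p').2 (Or.inr (Or.inr h1)))
  · obtain ⟨p'', h2, h3⟩ := (mem_B.1 h1).2
    refine (h.2 p'' ((mem_better hM hN s p'').2 (Or.inr (Or.inl
      (mem_A.2 ⟨h2, hN.1 s p'' h2, fun r hr => ?_⟩))))).trans h3
    rw [hM.2.1 s r p' hr hp']; exact h3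

theorem stable_better (hM : I.IsStable M) (hN : I.IsStable N) : I.IsStable (I.better M N) := by
  refine stable_of_dom (matching_of hM.1 hN.1 (fun s p h => (mem_better'.1 h).1)
    (fun s p p' h h' => (mem_better'.1 h).2 p' (mem_better'.1 h').1)
    (fun l => (counts hM hN l).imp (fun h p e => (h p e).1) (fun h p e => (h p e).1))) ?_
  intro s p hw
  have h1 := dom_of_stable hM (wants_of_better hM.1 hN.1 hw)
  have h2 := dom_of_stable hN (wants_of_better hN.1 hM.1 (better_comm (I := I) ▸ hw))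
  rcases HP_or hM hN (I.lec p) with H | H
  · rw [better_comm]; exact dom_better hN hM H h2 h1
  · exact dom_better hM hN H h1 h2

theorem stable_worse (hM : I.IsStable M) (hN : I.IsStable N) : I.IsStable (I.worse M N) := by
  refine stable_of_dom (matching_of hM.1 hN.1 (fun s p h => (mem_worse'.1 h).1)
    (fun s p p' h h' => (mem_worse'.1 h').2 p (mem_worse'.1 h).1)
    (fun l => (counts hM hN l).symm.imp (fun h p e => (h p e).2) (fun h p e => (h p e).2))) ?_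
  intro s p hw
  by_cases h1 : Wants M s p
  · rw [worse_comm]; exact dom_worse hN hM (dom_of_stable hM h1)
  by_cases h2 : Wants N s p
  · exact dom_worse hM hN (dom_of_stable hN h2)
  exfalso
  unfold Wants at h1 h2
  push Not at h1 h2
  obtain ⟨p₁, a1, a2⟩ := h1 hw.1
  obtain ⟨p₂, b1, b2⟩ := h2 hw.1
  rcases le_total (I.ix s p₁) (I.ix s p₂) with h | h
  · have := hw.2 p₂ (mem_worse'.2 ⟨Or.inr b1, ?_⟩)
    · omega
    rintro r (hr | hr)
    · rw [hM.1.2.1 s r p₁ hr a1]; exact h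
    · rw [hN.1.2.1 s r p₂ hr b1]
  · have := hw.2 p₁ (mem_worse'.2 ⟨Or.inl a1, ?_⟩)
    · omega
    rintro r (hr | hr)
    · rw [hM.1.2.1 s r p₁ hr a1]
    · rw [hN.1.2.1 s r p₂ hr b1]; exact h

theorem solution_closed (hM : I.IsSolution M) (hN : I.IsSolution N) :
    I.IsSolution (I.better M N) ∧ I.IsSolution (I.worse M N) := by
  have sM : I.IsStable M := ⟨hM.1, hM.2.1⟩
  have sN : I.IsStable N := ⟨hN.1, hN.2.1⟩
  refine ⟨⟨(stable_better sM sN).1, (stable_better sM sN).2, fun p => ?_⟩,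
    ⟨(stable_worse sM sN).1, (stable_worse sM sN).2, fun p => ?_⟩⟩
  · rcases counts sM sN (I.lec p) with h | h
    · exact (hM.2.2 p).trans (h p rfl).1.ge
    · exact (hN.2.2 p).trans (h p rfl).1.ge
  · rcases counts sM sN (I.lec p) with h | h
    · exact (hN.2.2 p).trans (h p rfl).2.ge
    · exact (hM.2.2 p).trans (h p rfl).2.ge

end two

end Inst

end Pool.Agent.P.MP_ef40db_lc
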